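import Pool.Agent.N654.ME.CVa

/-!
Project ME (helper939): ME22, convergence of the conditional variances, assembly.
-/

set_option autoImplicit false
set_option linter.unusedSectionVars false
open MeasureTheory ProbabilityTheory Filter Topology Finset
open scoped Classical

namespace Pool.Agent.N654.MECV
open Pool.Agent.N939.ME

section
variable {S : Type} [mS : MeasurableSpace S] {Q : Kernel S S} [IsMarkovKernel Q] {ν : Measure S}
    [IsProbabilityMeasure ν]
variable {Ω : Type} [mΩ : MeasurableSpace Ω] {μ : Measure Ω} [IsProbabilityMeasure μ]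
  {X : ℕ → Ω → S}

lemma cs (Z A B : Ω → ℝ) (hZ : ∀ ω, |Z ω| ≤ 1) (hZm : Measurable Z)
    (hA : MemLp A 2 μ) (hB : MemLp B 2 μ) :
    ∫ ω, Z ω * (A ω * B ω) ∂μ ≤ Real.sqrt (∫ ω, A ω ^ 2 ∂μ) * Real.sqrt (∫ ω, B ω ^ 2 ∂μ) := by
  have h := integral_mul_norm_le_Lp_mul_Lq (μ := μ) (f := A) (g := B) Real.HolderConjugate.two_two
    (by simpa using hA) (by simpa using hB)
  have h1 : Integrable (fun ω => A ω * B ω) μ := hA.integrable_mul hB
  have h2 : Integrable (fun ω => Z ω * (A ω * B ω)) μ :=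
    Integrable.bdd_mul (c := 1) h1 hZm.aestronglyMeasurable (ae_of_all _ hZ)
  have h3 : Integrable (fun ω => ‖A ω‖ * ‖B ω‖) μ := by
    refine h1.norm.congr (ae_of_all _ fun ω => ?_)
    simp
  refine (integral_mono h2 h3 fun ω => ?_).trans (h.trans (le_of_eq ?_))
  · simp only [Real.norm_eq_abs]
    refine (le_abs_self _).trans ?_
    rw [abs_mul, abs_mul]
    have := hZ ω
    nlinarith [mul_nonneg (abs_nonneg (A ω)) (abs_nonneg (B ω))]
  · simp [Real.sqrt_eq_rpow]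

lemma l1_test (F : S → ℝ) (hF : Measurable F) (_hFi : Integrable F ν) (e : ℝ)
    (h : ∀ y : S → ℝ, Measurable y → (∀ x, |y x| ≤ 1) → ∫ x, y x * F x ∂ν ≤ e) :
    ∫ x, |F x| ∂ν ≤ e := by
  have := h (fun x => if 0 ≤ F x then 1 else -1)
    (Measurable.ite (measurableSet_le measurable_const hF) measurable_const measurable_const)
    (fun x => by split_ifs <;> simp)
  refine le_trans (le_of_eq ?_) this
  refine integral_congr_ae (ae_of_all _ fun x => ?_)
  simp only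
  split_ifs with hx
  · rw [abs_of_nonneg hx, one_mul]
  · rw [abs_of_neg (not_le.1 hx)]; ring

lemma key3 (F : S → ℝ) (hF : Measurable F) (hFi : Integrable F ν) (c e e' : ℝ)
    (h : ∀ y : S → ℝ, Measurable y → (∀ x, 0 ≤ y x ∧ y x ≤ 1) →
      ∫ x, y x * F x ∂ν ≤ c * ∫ x, y x ∂ν + e)
    (h' : |∫ x, F x ∂ν - c| ≤ e') :
    ∫ x, |F x - c| ∂ν ≤ 2 * e + e' := by
  set y : S → ℝ := fun x => if c < F x then 1 else 0 with hy
  have hym : Measurable y :=
    Measurable.ite (measurableSet_lt measurable_const hF) measurable_const measurable_const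
  have hy1 : ∀ x, 0 ≤ y x ∧ y x ≤ 1 := fun x => by
    simp only [hy]; split_ifs <;> simp
  have h1 := h y hym hy1
  have i1 : Integrable (fun x => y x * F x) ν :=
    Integrable.bdd_mul (c := 1) hFi hym.aestronglyMeasurable (ae_of_all _ fun x => by
      rw [Real.norm_eq_abs, abs_of_nonneg (hy1 x).1]; exact (hy1 x).2)
  have i2 : Integrable y ν := Integrable.of_bound hym.aestronglyMeasurable 1
    (ae_of_all _ fun x => by rw [Real.norm_eq_abs, abs_of_nonneg (hy1 x).1]; exact (hy1 x).2)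
  have e1 : ∫ x, |F x - c| ∂ν = ∫ x, (2 * (y x * F x - c * y x) - (F x - c)) ∂ν := by
    refine integral_congr_ae (ae_of_all _ fun x => ?_)
    simp only [hy]
    split_ifs with hx
    · rw [abs_of_nonneg (by linarith)]; ring
    · rw [abs_of_nonpos (by linarith [not_lt.1 hx])]; ring
  have e2 := integral_sub (μ := ν) (f := fun x => 2 * (y x * F x - c * y x))
    (g := fun x => F x - c) ((i1.sub (i2.const_mul c)).const_mul 2)
    (hFi.sub (integrable_const c))
  have e3 := integral_const_mul (μ := ν) 2 (fun x => y x * F x - c * y x)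
  have e4 := integral_sub (μ := ν) (f := fun x => y x * F x) (g := fun x => c * y x) i1
    (i2.const_mul c)
  have e5 := integral_const_mul (μ := ν) c y
  have e6 := integral_sub (μ := ν) (f := F) (g := fun _ => c) hFi (integrable_const c)
  have e7 : ∫ _x : S, c ∂ν = c := by simp
  have := abs_le.1 h'
  rw [e1, e2, e3, e4, e5, e6, e7]
  linarith


lemma SS_meas_FX (f : S → ℝ) (hf : Measurable f) (t : ℕ) :
    Measurable[FX X t] (fun ω => SS f X t ω) := by
  unfold SS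
  refine Finset.measurable_sum _ fun i hi => ?_
  exact hf.comp (meas_FX (Finset.mem_range.1 hi).le)

lemma SS_add (f : S → ℝ) (m q : ℕ) (ω : Ω) :
    SS f X (m + q) ω = SS f X m ω + ∑ j ∈ range q, f (X (m + j) ω) := by
  unfold SS
  rw [Finset.sum_range_add]

lemma step3 (hTT : S_TT) (hML : S_ML) (hG1 : S_G1)
    (hinv : ν.bind Q = ν) (hX : MC Q ν μ X) (f : S → ℝ) (hf : Measurable f) (hf2 : MemLp f 2 ν)
    (C : ℝ) (hC : ∀ n : ℕ, ∫ ω, SS f X n ω ^ 2 ∂μ ≤ C * n) (h : ℕ)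
    (y : S → ℝ) (hy : Measurable y) (hy1 : ∀ x, |y x| ≤ 1) (M : ℝ) (L : ℕ) (hL : C * (L * h) ≤ M)
    (hC0 : 0 ≤ C) :
    ∫ x, y x * VV Q f (L * h) x ∂ν ≤ ∑ i ∈ range L, ∫ x, y x * (TT Q)^[i * h] (VV Q f h) x ∂ν
      + L * (2 * Real.sqrt M * Real.sqrt (∫ x, GG Q f h x ^ 2 ∂ν)) := by
  obtain ⟨hV, hG⟩ := hG1 S Q ν hinv f hf hf2
  obtain ⟨-, hg2, -, -⟩ := hG Ω μ X hX
  obtain ⟨hm, -, -⟩ := hML S Q ν hinv Ω μ X hX
  induction L with
  | zero => simp [VV]
  | succ L ih =>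
    have hL' : C * (L * h) ≤ M := by
      refine le_trans ?_ hL
      push_cast
      have : (0:ℝ) ≤ h := Nat.cast_nonneg h
      nlinarith [mul_nonneg hC0 this]
    have ih := ih hL'
    rw [Finset.sum_range_succ]
    rw [pairV0 hML hG1 hinv hX f hf hf2 _ y hy hy1] at ih ⊢
    have hZ0 : Measurable[FX X (L * h)] (fun ω => y (X 0 ω)) := hy.comp (meas_FX (Nat.zero_le _))
    have hyX : Measurable (fun ω => y (X 0 ω)) := hy.comp (hX.meas 0)
    have k1 := pairV hML hG1 hinv hX f hf hf2 (L * h) h (fun ω => y (X 0 ω)) hZ0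
      (fun ω => hy1 _)
    have k2 := markov_iter hTT hML hinv hX y hy hy1 (L * h) (VV Q f h) (hV h).2.2.1 (hV h).2.2.2
    have mS := memLp_SS hML hinv hX f hf2 (L * h)
    have mD := memLp_sum hML hinv hX f hf2 (L * h) h
    have mG : MemLp (fun ω => GG Q f h (X (L * h) ω)) 2 μ :=
      (hV h).2.1.comp_measurePreserving ⟨hX.meas _, hm _⟩
    have hSD := mS.integrable_mul mD
    have bdd : ∀ B : Ω → ℝ, Integrable B μ → Integrable (fun ω => y (X 0 ω) * B ω) μ := fun B hB =>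
      Integrable.bdd_mul (c := 1) hB hyX.aestronglyMeasurable (ae_of_all _ fun ω => hy1 _)
    have k3 : ∫ ω, (y (X 0 ω) * SS f X (L * h) ω) * (∑ i ∈ range h, f (X (L * h + i) ω)) ∂μ
        = ∫ ω, (y (X 0 ω) * SS f X (L * h) ω) * GG Q f h (X (L * h) ω) ∂μ := by
      refine cond_pair (FX_le hX.meas (L * h)) _ _ _ ?_ (mD.integrable (by norm_num)) ?_
        (hg2 (L * h) h)
      · exact (hZ0.mul (SS_meas_FX f hf (L * h))).stronglyMeasurable
      · refine (bdd _ hSD).congr (ae_of_all _ fun ω => ?_)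
        simp only [Pi.mul_apply]; ring
    have k4 := cs (μ := μ) (fun ω => y (X 0 ω)) (fun ω => SS f X (L * h) ω)
      (fun ω => GG Q f h (X (L * h) ω)) (fun ω => hy1 _) hyX mS mG
    have k5 : ∫ ω, GG Q f h (X (L * h) ω) ^ 2 ∂μ = ∫ x, GG Q f h x ^ 2 ∂ν := by
      have := integral_map (μ := μ) (φ := X (L * h)) (hX.meas _).aemeasurable
        (f := fun x => GG Q f h x ^ 2) (((hV h).1.pow_const 2).aestronglyMeasurable)
      rw [hm] at this
      exact this.symm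
    have k6 : Real.sqrt (∫ ω, SS f X (L * h) ω ^ 2 ∂μ) ≤ Real.sqrt M := by
      refine Real.sqrt_le_sqrt ?_
      have := hC (L * h)
      push_cast at this
      linarith
    have k7 : ∫ ω, y (X 0 ω) * SS f X ((L + 1) * h) ω ^ 2 ∂μ =
        ∫ ω, y (X 0 ω) * SS f X (L * h) ω ^ 2 ∂μ
        + 2 * ∫ ω, (y (X 0 ω) * SS f X (L * h) ω) * (∑ i ∈ range h, f (X (L * h + i) ω)) ∂μ
        + ∫ ω, y (X 0 ω) * (∑ i ∈ range h, f (X (L * h + i) ω)) ^ 2 ∂μ := by
      have j1 := bdd _ mS.integrable_sq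
      have j2 := (bdd _ hSD)
      have j3 := bdd _ mD.integrable_sq
      have j2' : Integrable (fun ω => 2 * ((y (X 0 ω) * SS f X (L * h) ω)
          * (∑ i ∈ range h, f (X (L * h + i) ω)))) μ := by
        refine (j2.const_mul 2).congr (ae_of_all _ fun ω => ?_)
        simp only [Pi.mul_apply]; ring
      rw [← integral_const_mul]
      have a1 := integral_add (μ := μ) (f := fun ω => y (X 0 ω) * SS f X (L * h) ω ^ 2)
        (g := fun ω => 2 * ((y (X 0 ω) * SS f X (L * h) ω)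
          * (∑ i ∈ range h, f (X (L * h + i) ω)))) j1 j2'
      have a2 := integral_add (μ := μ) (f := fun ω => y (X 0 ω) * SS f X (L * h) ω ^ 2
        + 2 * ((y (X 0 ω) * SS f X (L * h) ω) * (∑ i ∈ range h, f (X (L * h + i) ω))))
        (g := fun ω => y (X 0 ω) * (∑ i ∈ range h, f (X (L * h + i) ω)) ^ 2) (j1.add j2') j3
      rw [← a1, ← a2]
      refine integral_congr_ae (ae_of_all _ fun ω => ?_)
      simp only
      rw [Nat.add_mul, one_mul, SS_add]
      ring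
    rw [k7, k1, k2, k3]
    rw [k5] at k4
    have k8 : ∫ ω, (y (X 0 ω) * SS f X (L * h) ω) * GG Q f h (X (L * h) ω) ∂μ ≤
        Real.sqrt M * Real.sqrt (∫ x, GG Q f h x ^ 2 ∂ν) := by
      refine le_trans (le_of_eq ?_) (k4.trans (mul_le_mul_of_nonneg_right k6 (Real.sqrt_nonneg _)))
      refine integral_congr_ae (ae_of_all _ fun ω => ?_)
      simp only; ring
    push_cast
    linarith

lemma step4 (hML : S_ML) (hG1 : S_G1)
    (hinv : ν.bind Q = ν) (hX : MC Q ν μ X) (f : S → ℝ) (hf : Measurable f) (hf2 : MemLp f 2 ν)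
    (C : ℝ) (hC : ∀ n : ℕ, ∫ ω, SS f X n ω ^ 2 ∂μ ≤ C * n) (hC0 : 0 ≤ C) (m q : ℕ) :
    ∫ x, |VV Q f (m + q) x - VV Q f m x| ∂ν ≤
      Real.sqrt (C * q) * Real.sqrt (4 * C * (m + q)) := by
  obtain ⟨hV, hG⟩ := hG1 S Q ν hinv f hf hf2
  obtain ⟨-, hg2, -, hg4⟩ := hG Ω μ X hX
  obtain ⟨hm, -, -⟩ := hML S Q ν hinv Ω μ X hX
  refine l1_test (fun x => VV Q f (m + q) x - VV Q f m x) ((hV (m+q)).2.2.1.sub (hV m).2.2.1) ((hV (m+q)).2.2.2.sub (hV m).2.2.2) _ ?_
  intro y hy hy1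
  have bdd : ∀ F : S → ℝ, Integrable F ν → Integrable (fun x => y x * F x) ν := fun B hB =>
      Integrable.bdd_mul (c := 1) hB hy.aestronglyMeasurable (ae_of_all _ fun ω => hy1 _)
  have e1 : ∫ x, y x * (VV Q f (m + q) x - VV Q f m x) ∂ν
      = ∫ ω, y (X 0 ω) * ((∑ j ∈ range q, f (X (m + j) ω))
        * (SS f X (m + q) ω + SS f X m ω)) ∂μ := by
    have a1 := integral_sub (bdd _ (hV (m+q)).2.2.2) (bdd _ (hV m).2.2.2)
    have a2 : ∫ x, y x * (VV Q f (m + q) x - VV Q f m x) ∂ν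
      = ∫ x, (y x * VV Q f (m + q) x - y x * VV Q f m x) ∂ν :=
        integral_congr_ae (ae_of_all _ fun x => by ring)
    rw [a2, a1, pairV0 hML hG1 hinv hX f hf hf2 _ y hy hy1, pairV0 hML hG1 hinv hX f hf hf2 _ y hy hy1]
    have hyX : Measurable (fun ω => y (X 0 ω)) := hy.comp (hX.meas 0)
    have bdd' : ∀ B : Ω → ℝ, Integrable B μ → Integrable (fun ω => y (X 0 ω) * B ω) μ := fun B hB =>
      Integrable.bdd_mul (c := 1) hB hyX.aestronglyMeasurable (ae_of_all _ fun ω => hy1 _)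
    have b1 := integral_sub (bdd' _ (memLp_SS hML hinv hX f hf2 (m+q)).integrable_sq)
      (bdd' _ (memLp_SS hML hinv hX f hf2 m).integrable_sq)
    rw [← b1]
    refine integral_congr_ae (ae_of_all _ fun ω => ?_)
    simp only
    rw [SS_add]; ring
  rw [e1]
  have mD := memLp_sum hML hinv hX f hf2 m q
  have mT := (memLp_SS hML hinv hX f hf2 (m+q)).add (memLp_SS hML hinv hX f hf2 m)
  refine (cs (μ := μ) (fun ω => y (X 0 ω)) _ _ (fun ω => hy1 _) (hy.comp (hX.meas 0)) mD mT).trans ?_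
  refine mul_le_mul (Real.sqrt_le_sqrt ?_) (Real.sqrt_le_sqrt ?_) (Real.sqrt_nonneg _)
    (Real.sqrt_nonneg _)
  · have k1 := pairV hML hG1 hinv hX f hf hf2 m q (fun _ => 1) measurable_const (by simp)
    simp only [one_mul] at k1
    rw [k1]
    have := integral_map (μ := μ) (φ := X m) (hX.meas _).aemeasurable
        (f := VV Q f q) ((hV q).2.2.1.aestronglyMeasurable)
    rw [hm] at this
    rw [← this, ← hg4 q]
    exact hC q
  · have j1 := (memLp_SS hML hinv hX f hf2 (m+q)).integrable_sq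
    have j2 := (memLp_SS hML hinv hX f hf2 m).integrable_sq
    have a1 : ∫ ω, (((fun ω => SS f X (m + q) ω) + fun ω => SS f X m ω) ω) ^ 2 ∂μ
        ≤ ∫ ω, (2 * SS f X (m + q) ω ^ 2 + 2 * SS f X m ω ^ 2) ∂μ := by
      refine integral_mono mT.integrable_sq ((j1.const_mul 2).add (j2.const_mul 2)) fun ω => ?_
      simp only [Pi.add_apply]
      nlinarith [sq_nonneg (SS f X (m + q) ω - SS f X m ω)]
    have a2 := integral_add (j1.const_mul 2) (j2.const_mul 2)
    rw [integral_const_mul, integral_const_mul] at a2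
    have c1 := hC (m + q)
    have c2 := hC m
    push_cast at c1
    have : (0:ℝ) ≤ q := Nat.cast_nonneg q
    nlinarith [mul_nonneg hC0 this]


/-- block averages are close to the limit -/
lemma blockL (hTT : S_TT) (hBK2 : S_BK2) (hML : S_ML) (hLS : S_LS) (hUI : S_UI)
    (hOSC : S_OSC) (hG1 : S_G1) (hG3 : S_G3)
    (hinv : ν.bind Q = ν) (hErg : Erg Q ν) (f : S → ℝ) (Φ Ψ : ℝ × S → ℝ) (hRes : Res Q ν f Φ Ψ)
    (hX : MC Q ν μ X) (η : ℝ) (hη : 0 < η) :
    ∃ L : ℕ, 0 < L ∧ ∀ᶠ h : ℕ in atTop,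
      ∫ x, |∑ i ∈ range L, (TT Q)^[i * h] (VV Q f h) x - L * h * sg Q ν f Φ Ψ| ∂ν
        ≤ 9 * η * (L * h) := by
  set s := sg Q ν f Φ Ψ with hs
  have hf := hRes.mf
  have hf2 := hRes.lf
  obtain ⟨hV, hG⟩ := hG1 S Q ν hinv f hf hf2
  obtain ⟨-, -, -, hg4⟩ := hG Ω μ X hX
  obtain ⟨R, hR, hRU⟩ := hUI S Q ν hinv f Φ Ψ hRes Ω μ X hX η hη
  set δ := η / R with hδd
  have hδ : 0 < δ := div_pos hη hR
  obtain ⟨L, hL⟩ := exists_nat_gt (4 * R / (η * δ ^ 2))
  have hL0 : 0 < L := by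
    rcases Nat.eq_zero_or_pos L with h | h
    · rw [h] at hL
      have : 0 < 4 * R / (η * δ ^ 2) := by positivity
      simp at hL; linarith
    · exact h
  obtain ⟨h0, hh0⟩ := hLS S Q ν hinv hErg f Φ Ψ hRes Ω μ X hX η hη
  obtain ⟨-, hlim, -⟩ := hG3 S Q ν hinv f Φ Ψ hRes Ω μ X hX
  refine ⟨L, hL0, ?_⟩
  have hev := (Metric.tendsto_atTop.1 hlim η hη)
  obtain ⟨N0, hN0⟩ := hev
  filter_upwards [eventually_ge_atTop (max (max h0 N0) 1)] with h hh
  have hh1 : h0 ≤ h := (le_max_left _ _).trans ((le_max_left _ _).trans hh)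
  have hh2 : N0 ≤ h := (le_max_right _ _).trans ((le_max_left _ _).trans hh)
  have hh3 : 0 < h := (le_max_right _ _).trans hh
  have hhr : (0:ℝ) < h := Nat.cast_pos.2 hh3
  have hLr : (0:ℝ) < L := Nat.cast_pos.2 hL0
  have hTi := fun i : ℕ => TT_iter hTT hinv (i * h) (VV Q f h) (hV h).2.2.1 (hV h).2.2.2
  have key := key3 (ν := ν) (fun x => ∑ i ∈ range L, (TT Q)^[i * h] (VV Q f h) x)
    (Finset.measurable_sum _ fun i _ => (hTi i).1)
    (integrable_finsetSum _ fun i _ => (hTi i).2.1) (L * h * s) (4 * η * (L * h)) (η * (L * h))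
    ?_ ?_
  · refine key.trans (le_of_eq (by ring))
  · intro y hy hy1
    have k := key2 hTT hBK2 hML hOSC hG1 hinv hX f hf hf2 s η R δ hR hδ h hh3 (hRU h)
      (hh0 h hh1) y hy hy1 L
    have e1 : ∫ x, y x * ∑ i ∈ range L, (TT Q)^[i * h] (VV Q f h) x ∂ν
        = ∑ i ∈ range L, ∫ x, y x * (TT Q)^[i * h] (VV Q f h) x ∂ν := by
      rw [← integral_finsetSum]
      · refine integral_congr_ae (ae_of_all _ fun x => ?_)
        simp only [Finset.mul_sum]
      · intro i _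
        exact Integrable.bdd_mul (c := 1) (hTi i).2.1 hy.aestronglyMeasurable
          (ae_of_all _ fun x => by
            rw [Real.norm_eq_abs, abs_of_nonneg (hy1 x).1]; exact (hy1 x).2)
    rw [e1]
    refine k.trans ?_
    have hq1 : ∫ x, y x ^ 2 ∂ν ≤ 1 := by
      have : ∫ x, y x ^ 2 ∂ν ≤ ∫ _x : S, (1:ℝ) ∂ν := by
        refine integral_mono_of_nonneg (ae_of_all _ fun x => sq_nonneg _) (integrable_const _)
          (ae_of_all _ fun x => ?_)
        have := hy1 x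
        simp only
        nlinarith
      simpa using this
    have hq2 : 0 ≤ ∫ x, yk Q ν y (L * h) x ^ 2 ∂ν := integral_nonneg fun x => sq_nonneg _
    have hq3 : 4 * R * h / δ ^ 2 * (∫ x, y x ^ 2 ∂ν - ∫ x, yk Q ν y (L * h) x ^ 2 ∂ν)
        ≤ 4 * R * h / δ ^ 2 := by
      have : 0 ≤ 4 * R * h / δ ^ 2 := by positivity
      nlinarith
    have hq4 : 4 * R * h / δ ^ 2 ≤ η * (L * h) := by
      rw [div_lt_iff₀ (by positivity)] at hL
      rw [div_le_iff₀ (by positivity)]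
      nlinarith [mul_lt_mul_of_pos_right hL hhr]
    have hq5 : R * δ = η := by rw [hδd]; field_simp
    have hq6 : R * h * δ = η * h := by rw [← hq5]; ring
    rw [hq6]
    nlinarith
  · have e1 : ∫ x, ∑ i ∈ range L, (TT Q)^[i * h] (VV Q f h) x ∂ν
        = L * ∫ x, VV Q f h x ∂ν := by
      rw [integral_finsetSum _ fun i _ => (hTi i).2.1]
      rw [Finset.sum_congr rfl fun i _ => (hTi i).2.2]
      simp
    rw [e1, ← hg4 h]
    have k := hN0 h hh2
    rw [Real.dist_eq] at k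
    have e2 : (L:ℝ) * ∫ ω, SS f X h ω ^ 2 ∂μ - L * h * s
        = L * h * ((∫ ω, SS f X h ω ^ 2 ∂μ) / h - s) := by
      field_simp
    rw [e2, abs_mul, abs_of_nonneg (by positivity)]
    nlinarith [mul_pos hLr hhr]

/-- the variance of a long block against the sum over its short blocks -/
lemma step3' (hTT : S_TT) (hML : S_ML) (hG1 : S_G1) (hG2 : S_G2)
    (hinv : ν.bind Q = ν) (hX : MC Q ν μ X) (f : S → ℝ) (Φ Ψ : ℝ × S → ℝ)
    (hRes : Res Q ν f Φ Ψ) (C : ℝ) (hC : ∀ n : ℕ, ∫ ω, SS f X n ω ^ 2 ∂μ ≤ C * n) (hC0 : 0 < C)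
    (L : ℕ) (hL0 : 0 < L) (η : ℝ) (hη : 0 < η) :
    ∀ᶠ h : ℕ in atTop, ∫ x, |VV Q f (L * h) x - ∑ i ∈ range L, (TT Q)^[i * h] (VV Q f h) x| ∂ν
      ≤ η * (L * h) := by
  have hf := hRes.mf
  have hf2 := hRes.lf
  obtain ⟨hV, hG⟩ := hG1 S Q ν hinv f hf hf2
  have hLr : (0:ℝ) < L := Nat.cast_pos.2 hL0
  set κ : ℝ := η ^ 2 / (4 * C * L) with hκ
  have hκ0 : 0 < κ := by positivity
  obtain ⟨N0, hN0⟩ := Metric.tendsto_atTop.1 (hG2 S Q ν hinv f Φ Ψ hRes) κ hκ0
  filter_upwards [eventually_ge_atTop (max N0 1)] with h hh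
  have hh2 : N0 ≤ h := (le_max_left _ _).trans hh
  have hh3 : 0 < h := (le_max_right _ _).trans hh
  have hhr : (0:ℝ) < h := Nat.cast_pos.2 hh3
  have hTi := fun i : ℕ => TT_iter hTT hinv (i * h) (VV Q f h) (hV h).2.2.1 (hV h).2.2.2
  have gb : ∫ x, GG Q f h x ^ 2 ∂ν ≤ κ * h := by
    have k := hN0 h hh2
    rw [Real.dist_eq, sub_zero] at k
    have k' := (le_abs_self _).trans k.le
    rwa [div_le_iff₀ hhr] at k'
  have i1 := (hV (L * h)).2.2.2
  have i2 : Integrable (fun x => ∑ i ∈ range L, (TT Q)^[i * h] (VV Q f h) x) ν :=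
    integrable_finsetSum _ fun i _ => (hTi i).2.1
  refine l1_test (fun x => VV Q f (L * h) x - ∑ i ∈ range L, (TT Q)^[i * h] (VV Q f h) x)
    ((hV (L * h)).2.2.1.sub (Finset.measurable_sum _ fun i _ => (hTi i).1))
    (i1.sub i2) _ ?_
  intro y hy hy1
  have k := step3 hTT hML hG1 hinv hX f hf hf2 C hC h y hy hy1 (C * (L * h)) L le_rfl hC0.le
  have bdd : ∀ F : S → ℝ, Integrable F ν → Integrable (fun x => y x * F x) ν := fun B hB =>
      Integrable.bdd_mul (c := 1) hB hy.aestronglyMeasurable (ae_of_all _ fun ω => hy1 _)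
  have e1 : ∫ x, y x * ∑ i ∈ range L, (TT Q)^[i * h] (VV Q f h) x ∂ν
        = ∑ i ∈ range L, ∫ x, y x * (TT Q)^[i * h] (VV Q f h) x ∂ν := by
    rw [← integral_finsetSum]
    · refine integral_congr_ae (ae_of_all _ fun x => ?_)
      simp only [Finset.mul_sum]
    · intro i _
      exact bdd _ (hTi i).2.1
  have e2 := integral_sub (bdd _ i1) (bdd _ i2)
  have e3 : ∫ x, y x * (VV Q f (L * h) x - ∑ i ∈ range L, (TT Q)^[i * h] (VV Q f h) x) ∂ν
      = ∫ x, (y x * VV Q f (L * h) x - y x * ∑ i ∈ range L, (TT Q)^[i * h] (VV Q f h) x) ∂ν :=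
    integral_congr_ae (ae_of_all _ fun x => by ring)
  rw [e3, e2, e1]
  have b1 : Real.sqrt (C * (L * h)) * Real.sqrt (∫ x, GG Q f h x ^ 2 ∂ν) ≤ η * h / 2 := by
    have b2 := Real.sqrt_le_sqrt gb
    refine (mul_le_mul_of_nonneg_left b2 (Real.sqrt_nonneg _)).trans ?_
    rw [← Real.sqrt_mul (by positivity)]
    refine Real.sqrt_le_iff.2 ⟨by positivity, le_of_eq ?_⟩
    rw [hκ]; field_simp; ring
  have b3 : (L:ℝ) * (2 * Real.sqrt (C * (L * h)) * Real.sqrt (∫ x, GG Q f h x ^ 2 ∂ν))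
      ≤ L * (η * h) := by
    refine mul_le_mul_of_nonneg_left ?_ hLr.le
    linarith
  linarith

end

theorem cv (hTT : S_TT) (hBK2 : S_BK2) (hML : S_ML) (hLS : S_LS) (hUI : S_UI) (hOSC : S_OSC)
    (hG1 : S_G1) (hG2 : S_G2) (hG3 : S_G3) : S_CV := by
  intro S _ Q _ ν _ hinv hErg f Φ Ψ hRes Ω _ μ _ X hX
  have hf := hRes.mf
  have hf2 := hRes.lf
  obtain ⟨hV, hG⟩ := hG1 S Q ν hinv f hf hf2
  obtain ⟨-, -, C, hC0, hC⟩ := hG3 S Q ν hinv f Φ Ψ hRes Ω μ X hX
  set s := sg Q ν f Φ Ψ with hs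
  rw [Metric.tendsto_atTop]
  intro ε hε
  set η := ε / 13 with hηd
  have hη : 0 < η := by positivity
  obtain ⟨L, hL0, hb⟩ := blockL hTT hBK2 hML hLS hUI hOSC hG1 hG3 hinv hErg f Φ Ψ hRes hX η hη
  have hb' := step3' hTT hML hG1 hG2 hinv hX f Φ Ψ hRes C hC hC0 L hL0 η hη
  have hLr : (0:ℝ) < L := Nat.cast_pos.2 hL0
  have hdiv : Tendsto (fun n : ℕ => n / L) atTop atTop := Nat.tendsto_div_const_atTop hL0.ne'
  obtain ⟨N1, hN1⟩ := eventually_atTop.1 (hdiv.eventually (hb.and hb'))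
  obtain ⟨N2, hN2⟩ := exists_nat_gt (4 * C ^ 2 * L / η ^ 2)
  obtain ⟨N3, hN3⟩ := exists_nat_gt (L * |s| / η)
  refine ⟨max (max N1 N2) (max N3 1), fun n hn => ?_⟩
  have n1 : N1 ≤ n := (le_max_left _ _).trans ((le_max_left _ _).trans hn)
  have n2 : N2 ≤ n := (le_max_right _ _).trans ((le_max_left _ _).trans hn)
  have n3 : N3 ≤ n := (le_max_left _ _).trans ((le_max_right _ _).trans hn)
  have n4 : 0 < n := (le_max_right _ _).trans ((le_max_right _ _).trans hn)
  have hnr : (0:ℝ) < n := Nat.cast_pos.2 n4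
  obtain ⟨c1, c2⟩ := hN1 n n1
  set h := n / L with hh
  set q := n % L with hq
  have hnq : L * h + q = n := Nat.div_add_mod n L
  have hqL : q < L := Nat.mod_lt _ hL0
  have hqr : (q:ℝ) ≤ L := by exact_mod_cast hqL.le
  have hnqr : (L:ℝ) * h + q = n := by exact_mod_cast hnq
  have hq0 : (0:ℝ) ≤ q := Nat.cast_nonneg q
  have hLh : (L:ℝ) * h ≤ n := by linarith
  have c3 := step4 hML hG1 hinv hX f hf hf2 C hC hC0.le (L * h) q
  rw [hnq] at c3
  have hTi := fun i : ℕ => TT_iter hTT hinv (i * h) (VV Q f h) (hV h).2.2.1 (hV h).2.2.2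
  have d3 : Real.sqrt (C * q) * Real.sqrt (4 * C * (((L * h : ℕ) : ℝ) + q)) ≤ η * n := by
    rw [← Real.sqrt_mul (by positivity)]
    refine Real.sqrt_le_iff.2 ⟨by positivity, ?_⟩
    push_cast
    rw [hnqr]
    have h2 : 4 * C ^ 2 * L < η ^ 2 * n := by
      rw [div_lt_iff₀ (by positivity)] at hN2
      have : (N2:ℝ) ≤ n := by exact_mod_cast n2
      nlinarith [sq_nonneg η, mul_le_mul_of_nonneg_left this (sq_nonneg η)]
    have h3 : C * q * (4 * C * n) ≤ 4 * C ^ 2 * L * n := by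
      have : C * q * (4 * C * n) = 4 * C ^ 2 * n * q := by ring
      rw [this]
      have h4 : 0 ≤ 4 * C ^ 2 * (n:ℝ) := by positivity
      nlinarith [mul_le_mul_of_nonneg_left hqr h4]
    nlinarith [mul_lt_mul_of_pos_right h2 hnr]
  have d4 : (n - L * h) * |s| ≤ η * n := by
    have h2 : L * |s| < η * n := by
      rw [div_lt_iff₀ hη] at hN3
      have : (N3:ℝ) ≤ n := by exact_mod_cast n3
      nlinarith
    have h3 : (n:ℝ) - L * h = q := by linarith
    rw [h3]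
    nlinarith [mul_le_mul_of_nonneg_right hqr (abs_nonneg s)]
  have iW : Integrable (fun x => ∑ i ∈ range L, (TT Q)^[i * h] (VV Q f h) x) ν :=
    integrable_finsetSum _ fun i _ => (hTi i).2.1
  have iV := fun j => (hV j).2.2.2
  have j1 : Integrable (fun x => |VV Q f n x - VV Q f (L * h) x|) ν := ((iV n).sub (iV _)).abs
  have j2 : Integrable (fun x => |VV Q f (L * h) x
      - ∑ i ∈ range L, (TT Q)^[i * h] (VV Q f h) x|) ν := ((iV _).sub iW).abs
  have j3 : Integrable (fun x => |∑ i ∈ range L, (TT Q)^[i * h] (VV Q f h) x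
      - L * h * s|) ν := (iW.sub (integrable_const _)).abs
  have main : ∫ x, |VV Q f n x / n - s| ∂ν ≤ ∫ x, (n:ℝ)⁻¹ * (|VV Q f n x - VV Q f (L * h) x|
      + |VV Q f (L * h) x - ∑ i ∈ range L, (TT Q)^[i * h] (VV Q f h) x|
      + |∑ i ∈ range L, (TT Q)^[i * h] (VV Q f h) x - L * h * s| + (n - L * h) * |s|) ∂ν := by
    refine integral_mono (((iV n).div_const _).sub (integrable_const _)).abs
      ((((j1.add j2).add j3).add (integrable_const _)).const_mul _) fun x => ?_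
    simp only
    have e1 : VV Q f n x / n - s = (n:ℝ)⁻¹ * (VV Q f n x - n * s) := by field_simp
    rw [e1, abs_mul, abs_of_pos (inv_pos.2 hnr)]
    refine mul_le_mul_of_nonneg_left ?_ (inv_pos.2 hnr).le
    have e2 : VV Q f n x - n * s = (VV Q f n x - VV Q f (L * h) x)
      + (VV Q f (L * h) x - ∑ i ∈ range L, (TT Q)^[i * h] (VV Q f h) x)
      + (∑ i ∈ range L, (TT Q)^[i * h] (VV Q f h) x - L * h * s) + (-((n - L * h) * s)) := by ring
    rw [e2]
    refine (abs_add_le _ _).trans (add_le_add ((abs_add_le _ _).trans (add_le_add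
      (abs_add_le _ _) le_rfl)) ?_)
    rw [abs_neg, abs_mul, abs_of_nonneg (by linarith)]
  have a1 := integral_add (μ := ν) (f := fun x => |VV Q f n x - VV Q f (L * h) x|)
    (g := fun x => |VV Q f (L * h) x - ∑ i ∈ range L, (TT Q)^[i * h] (VV Q f h) x|) j1 j2
  have a2 := integral_add (μ := ν) (f := fun x => |VV Q f n x - VV Q f (L * h) x|
    + |VV Q f (L * h) x - ∑ i ∈ range L, (TT Q)^[i * h] (VV Q f h) x|)
    (g := fun x => |∑ i ∈ range L, (TT Q)^[i * h] (VV Q f h) x - L * h * s|) (j1.add j2) j3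
  have a3 := integral_add (μ := ν) (f := fun x => |VV Q f n x - VV Q f (L * h) x|
    + |VV Q f (L * h) x - ∑ i ∈ range L, (TT Q)^[i * h] (VV Q f h) x|
    + |∑ i ∈ range L, (TT Q)^[i * h] (VV Q f h) x - L * h * s|)
    (g := fun _ => (n - L * h) * |s|) ((j1.add j2).add j3) (integrable_const _)
  rw [integral_const_mul, a3, a2, a1] at main
  have a4 : ∫ _x : S, (n - L * h) * |s| ∂ν = (n - L * h) * |s| := by simp
  rw [a4] at main
  have fin : ∫ x, |VV Q f n x / n - s| ∂ν ≤ 12 * η := by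
    refine main.trans ?_
    rw [inv_mul_le_iff₀ hnr]
    nlinarith [mul_le_mul_of_nonneg_left hLh hη.le]
  rw [Real.dist_eq, sub_zero, abs_of_nonneg (integral_nonneg fun x => abs_nonneg _)]
  refine lt_of_le_of_lt fin ?_
  rw [hηd]; linarith

end Pool.Agent.N654.MECV
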