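import Pool.Agent.N939.ME.Stm2

/-!
Project ME (helper939): ME22, convergence of the conditional variances.
-/

set_option autoImplicit false
set_option linter.unusedSectionVars false
open MeasureTheory ProbabilityTheory Filter Topology Finset
open scoped Classical

namespace Pool.Agent.N654.MECV
open Pool.Agent.N939.ME

section
variable {S : Type} [mS : MeasurableSpace S] {Q : Kernel S S} [IsMarkovKernel Q] {ν : Measure S}
    [IsProbabilityMeasure ν]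

lemma TT_one_iter (t : ℕ) : (TT Q)^[t] (fun _ => (1:ℝ)) = fun _ => 1 := by
  induction t with
  | zero => rfl
  | succ n ih =>
    rw [Function.iterate_succ_apply', ih]
    funext x
    simp [TT]

lemma TT_iter (hTT : S_TT) (hinv : ν.bind Q = ν) (t : ℕ) : ∀ g : S → ℝ, Measurable g →
    Integrable g ν → Measurable ((TT Q)^[t] g) ∧ Integrable ((TT Q)^[t] g) ν ∧
      ∫ x, (TT Q)^[t] g x ∂ν = ∫ x, g x ∂ν := by
  obtain ⟨h1, h2, -⟩ := hTT S Q ν hinv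
  induction t with
  | zero => intro g hg hi; exact ⟨hg, hi, rfl⟩
  | succ n ih =>
    intro g hg hi
    obtain ⟨a, b, c⟩ := ih g hg hi
    rw [Function.iterate_succ_apply']
    refine ⟨h1 _ a, (h2 _ b).1, ?_⟩
    rw [(h2 _ b).2.1, c]

variable {Ω : Type} [mΩ : MeasurableSpace Ω] {μ : Measure Ω} [IsProbabilityMeasure μ]
  {X : ℕ → Ω → S}

lemma FX_le (hX : ∀ i, Measurable (X i)) (n : ℕ) : FX X n ≤ mΩ :=
  iSup₂_le fun i _ => (hX i).comap_le

lemma meas_FX {i t : ℕ} (hit : i ≤ t) : Measurable[FX X t] (X i) := by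
  have h1 : MeasurableSpace.comap (X i) mS ≤ FX X t := le_iSup₂_of_le i hit le_rfl
  exact (comap_measurable (X i)).mono h1 le_rfl

lemma markov_iter (hTT : S_TT) (hML : S_ML) (hinv : ν.bind Q = ν) (hX : MC Q ν μ X)
    (y : S → ℝ) (hy : Measurable y) (hb : ∀ x, |y x| ≤ 1) (h : ℕ) :
    ∀ g : S → ℝ, Measurable g → Integrable g ν →
      ∫ ω, y (X 0 ω) * g (X h ω) ∂μ = ∫ x, y x * (TT Q)^[h] g x ∂ν := by
  obtain ⟨hm, -, h3⟩ := hML S Q ν hinv Ω μ X hX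
  obtain ⟨t1, t2, -⟩ := hTT S Q ν hinv
  induction h with
  | zero =>
    intro g hg hi
    have := integral_map (μ := μ) (φ := X 0) (hX.meas 0).aemeasurable
      (f := fun x => y x * g x) (by
        exact (hy.mul hg).aestronglyMeasurable)
    rw [hm 0] at this
    simpa using this.symm
  | succ n ih =>
    intro g hg hi
    have hmp : MeasurePreserving (X (n+1)) μ ν := ⟨hX.meas _, hm _⟩
    have hgi : Integrable (fun ω => g (X (n+1) ω)) μ := hmp.integrable_comp_of_integrable hi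
    have hZ : Measurable[FX X n] (fun ω => y (X 0 ω)) := hy.comp (meas_FX (Nat.zero_le n))
    have hint : Integrable (fun ω => y (X 0 ω) * g (X (n + 1) ω)) μ := by
      refine Integrable.bdd_mul (c := 1) hgi ?_ ?_
      · exact (hy.comp (hX.meas 0)).aestronglyMeasurable
      · exact ae_of_all _ fun ω => by simpa using hb (X 0 ω)
    rw [(h3 n g (fun ω => y (X 0 ω)) hg hi hZ hint).2, ih (TT Q g) (t1 g hg) (t2 g hi).1,
      Function.iterate_succ_apply]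

lemma cond_pair {m : MeasurableSpace Ω} (hm : m ≤ mΩ) (Z Y H : Ω → ℝ)
    (hZ : StronglyMeasurable[m] Z) (hY : Integrable Y μ) (hZY : Integrable (Z * Y) μ)
    (hc : μ[Y|m] =ᵐ[μ] H) : ∫ ω, Z ω * Y ω ∂μ = ∫ ω, Z ω * H ω ∂μ := by
  have h1 : ∫ ω, Z ω * Y ω ∂μ = ∫ ω, (μ[Z * Y|m]) ω ∂μ := by
    rw [integral_condExp hm]; rfl
  rw [h1]
  have h2 := condExp_mul_of_stronglyMeasurable_left (m := m) (μ := μ) hZ hZY hY
  refine integral_congr_ae ?_
  filter_upwards [h2, hc] with ω a b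
  rw [a, Pi.mul_apply, b]


lemma mn_nonneg (g : ℕ → ℝ) (hg : ∀ t, 0 ≤ g t) : ∀ t, 0 ≤ mn g t
  | 0 => zero_le_one
  | t + 1 => le_min (mn_nonneg g hg t) (hg t)

lemma mn_le_one (g : ℕ → ℝ) : ∀ t, mn g t ≤ 1
  | 0 => le_rfl
  | t + 1 => (min_le_left _ _).trans (mn_le_one g t)

lemma mn_le_zero (g : ℕ → ℝ) : ∀ t, 0 < t → mn g t ≤ g 0
  | 0 => fun h => absurd h (lt_irrefl 0)
  | 1 => fun _ => by simp [mn]
  | t + 2 => fun _ => (min_le_left _ _).trans (mn_le_zero g (t+1) (Nat.succ_pos t))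

lemma mn_meas (g : ℕ → Ω → ℝ) (hg : ∀ t, Measurable (g t)) : ∀ t,
    Measurable (fun ω => mn (fun t => g t ω) t)
  | 0 => measurable_const
  | t + 1 => (mn_meas g hg t).min (hg t)

lemma memLp_f (hML : S_ML) (hinv : ν.bind Q = ν) (hX : MC Q ν μ X) (f : S → ℝ)
    (hf2 : MemLp f 2 ν) (i : ℕ) : MemLp (fun ω => f (X i ω)) 2 μ := by
  obtain ⟨hm, -, -⟩ := hML S Q ν hinv Ω μ X hX
  exact hf2.comp_measurePreserving ⟨hX.meas i, hm i⟩

lemma memLp_sum (hML : S_ML) (hinv : ν.bind Q = ν) (hX : MC Q ν μ X) (f : S → ℝ)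
    (hf2 : MemLp f 2 ν) (t j : ℕ) :
    MemLp (fun ω => ∑ i ∈ range j, f (X (t + i) ω)) 2 μ :=
  memLp_finsetSum _ fun i _ => memLp_f hML hinv hX f hf2 (t + i)

lemma memLp_SS (hML : S_ML) (hinv : ν.bind Q = ν) (hX : MC Q ν μ X) (f : S → ℝ)
    (hf2 : MemLp f 2 ν) (j : ℕ) : MemLp (fun ω => SS f X j ω) 2 μ :=
  memLp_finsetSum _ fun i _ => memLp_f hML hinv hX f hf2 i

/-- pairing with a bounded function of `X t` -/
lemma pairV (hML : S_ML) (hG1 : S_G1) (hinv : ν.bind Q = ν) (hX : MC Q ν μ X) (f : S → ℝ)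
    (hf : Measurable f) (hf2 : MemLp f 2 ν) (t j : ℕ) (Z : Ω → ℝ) (hZ : Measurable[FX X t] Z)
    (hb : ∀ ω, |Z ω| ≤ 1) :
    ∫ ω, Z ω * (∑ i ∈ range j, f (X (t + i) ω)) ^ 2 ∂μ = ∫ ω, Z ω * VV Q f j (X t ω) ∂μ := by
  obtain ⟨-, hG⟩ := hG1 S Q ν hinv f hf hf2
  obtain ⟨-, -, h3, -⟩ := hG Ω μ X hX
  have hY : Integrable (fun ω => (∑ i ∈ range j, f (X (t + i) ω)) ^ 2) μ :=
    (memLp_sum hML hinv hX f hf2 t j).integrable_sq
  refine cond_pair (FX_le hX.meas t) Z _ _ hZ.stronglyMeasurable hY ?_ (h3 t j)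
  refine Integrable.bdd_mul (c := 1) hY ?_ (ae_of_all _ hb)
  exact (hZ.mono (FX_le hX.meas t) le_rfl).aestronglyMeasurable

lemma pairV0 (hML : S_ML) (hG1 : S_G1) (hinv : ν.bind Q = ν) (hX : MC Q ν μ X) (f : S → ℝ)
    (hf : Measurable f) (hf2 : MemLp f 2 ν) (j : ℕ) (w : S → ℝ) (hw : Measurable w)
    (hb : ∀ x, |w x| ≤ 1) :
    ∫ x, w x * VV Q f j x ∂ν = ∫ ω, w (X 0 ω) * SS f X j ω ^ 2 ∂μ := by
  obtain ⟨hV, hG⟩ := hG1 S Q ν hinv f hf hf2
  obtain ⟨hm, -, -⟩ := hML S Q ν hinv Ω μ X hX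
  have h1 := pairV hML hG1 hinv hX f hf hf2 0 j (fun ω => w (X 0 ω))
    (hw.comp (meas_FX le_rfl)) (fun ω => hb _)
  simp only [zero_add] at h1
  have h2 := integral_map (μ := μ) (φ := X 0) (hX.meas 0).aemeasurable
      (f := fun x => w x * VV Q f j x) (by
        exact (hw.mul (hV j).2.2.1).aestronglyMeasurable)
  rw [hm 0] at h2
  rw [h2]
  exact h1.symm

lemma key1 (_hTT : S_TT) (hBK2 : S_BK2) (hML : S_ML) (hOSC : S_OSC) (hG1 : S_G1)
    (hinv : ν.bind Q = ν) (hX : MC Q ν μ X) (f : S → ℝ) (hf : Measurable f) (hf2 : MemLp f 2 ν)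
    (s η R δ : ℝ) (hR : 0 < R) (hδ : 0 < δ) (h : ℕ) (hh : 0 < h)
    (hUI : ∫ ω, (if R * h < SS f X h ω ^ 2 then SS f X h ω ^ 2 else 0) ∂μ ≤ η * h)
    (hLS : ∀ y : S → ℝ, Measurable y → (∀ x, 0 ≤ y x ∧ y x ≤ 1) →
      ∫ ω, mn (fun t => yk Q ν y t (X t ω)) h * SS f X h ω ^ 2 ∂μ ≤ h * (s * ∫ x, y x ∂ν + η))
    (w : S → ℝ) (hw : Measurable w) (hw1 : ∀ x, 0 ≤ w x ∧ w x ≤ 1) :
    ∫ x, w x * VV Q f h x ∂ν ≤ h * (s * ∫ x, w x ∂ν + η) + η * h
      + R * h * (δ + 4 * (∫ x, w x ^ 2 ∂ν - ∫ x, yk Q ν w h x ^ 2 ∂ν) / δ ^ 2) := by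
  obtain ⟨-, -, hyk, -⟩ := hBK2 S Q ν hinv
  rw [pairV0 hML hG1 hinv hX f hf hf2 h w hw (fun x => by
    rw [abs_of_nonneg (hw1 x).1]; exact (hw1 x).2)]
  have hosc := hOSC S Q ν hinv Ω μ X hX w hw hw1 h δ hh hδ
  have hls := hLS w hw hw1
  set Mn : Ω → ℝ := fun ω => mn (fun t => yk Q ν w t (X t ω)) h with hMn
  have hMm : Measurable Mn := mn_meas (fun t ω => yk Q ν w t (X t ω))
    (fun t => (hyk w t hw hw1).1.comp (hX.meas t)) h
  have hM0 : ∀ ω, 0 ≤ Mn ω := fun ω => mn_nonneg _ (fun t => ((hyk w t hw hw1).2 _).1) h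
  have hM1 : ∀ ω, Mn ω ≤ 1 := fun ω => mn_le_one _ h
  have hMw : ∀ ω, Mn ω ≤ w (X 0 ω) := fun ω => by
    exact mn_le_zero (fun t => yk Q ν w t (X t ω)) h hh
  have hS2 : Integrable (fun ω => SS f X h ω ^ 2) μ := (memLp_SS hML hinv hX f hf2 h).integrable_sq
  have hwX : Measurable (fun ω => w (X 0 ω)) := hw.comp (hX.meas 0)
  have hSm : Measurable (fun ω => SS f X h ω) := by
    unfold SS
    exact Finset.measurable_sum _ fun i _ => hf.comp (hX.meas i)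
  have i1 : Integrable (fun ω => Mn ω * SS f X h ω ^ 2) μ :=
    Integrable.bdd_mul (c := 1) hS2 hMm.aestronglyMeasurable (ae_of_all _ fun ω => by
      rw [Real.norm_eq_abs, abs_of_nonneg (hM0 ω)]; exact hM1 ω)
  have i2 : Integrable (fun ω => if R * h < SS f X h ω ^ 2 then SS f X h ω ^ 2 else 0) μ := by
    have := hS2.indicator (measurableSet_lt measurable_const (hSm.pow_const 2)) (s := {ω | R * h < SS f X h ω ^ 2})
    refine this.congr (ae_of_all _ fun ω => ?_)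
    simp [Set.indicator]
  have i3 : Integrable (fun ω => w (X 0 ω) - Mn ω) μ := by
    refine Integrable.sub ?_ ?_
    · refine Integrable.of_bound hwX.aestronglyMeasurable 1 (ae_of_all _ fun ω => ?_)
      rw [Real.norm_eq_abs, abs_of_nonneg (hw1 _).1]; exact (hw1 _).2
    · refine Integrable.of_bound hMm.aestronglyMeasurable 1 (ae_of_all _ fun ω => ?_)
      rw [Real.norm_eq_abs, abs_of_nonneg (hM0 ω)]; exact hM1 ω
  have i4 : Integrable (fun ω => w (X 0 ω) * SS f X h ω ^ 2) μ :=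
    Integrable.bdd_mul (c := 1) hS2 hwX.aestronglyMeasurable (ae_of_all _ fun ω => by
      rw [Real.norm_eq_abs, abs_of_nonneg (hw1 _).1]; exact (hw1 _).2)
  have hRh : 0 ≤ R * h := by positivity
  have main : ∫ ω, w (X 0 ω) * SS f X h ω ^ 2 ∂μ ≤
      ∫ ω, (Mn ω * SS f X h ω ^ 2 + (if R * h < SS f X h ω ^ 2 then SS f X h ω ^ 2 else 0)
        + R * h * (w (X 0 ω) - Mn ω)) ∂μ := by
    refine integral_mono i4 ((i1.add i2).add (i3.const_mul _)) fun ω => ?_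
    simp only
    have a0 := hM0 ω
    have a2 := hMw ω
    have a3 := (hw1 (X 0 ω)).2
    have a4 : 0 ≤ SS f X h ω ^ 2 := sq_nonneg _
    split_ifs with hc
    · nlinarith [mul_nonneg hRh (sub_nonneg.2 a2), mul_nonneg a4 (by linarith : 0 ≤ 1 - w (X 0 ω) + Mn ω)]
    · have : SS f X h ω ^ 2 ≤ R * h := not_lt.1 hc
      nlinarith [mul_nonneg (sub_nonneg.2 this) (sub_nonneg.2 a2)]
  have e1 := integral_add (μ := μ) (f := fun ω => Mn ω * SS f X h ω ^ 2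
      + (if R * h < SS f X h ω ^ 2 then SS f X h ω ^ 2 else 0))
      (g := fun ω => R * h * (w (X 0 ω) - Mn ω)) (i1.add i2) (i3.const_mul _)
  have e2 := integral_add (μ := μ) (f := fun ω => Mn ω * SS f X h ω ^ 2)
      (g := fun ω => (if R * h < SS f X h ω ^ 2 then SS f X h ω ^ 2 else 0)) i1 i2
  rw [integral_const_mul] at e1
  have := mul_le_mul_of_nonneg_left hosc hRh
  linarith

lemma key2 (hTT : S_TT) (hBK2 : S_BK2) (hML : S_ML) (hOSC : S_OSC) (hG1 : S_G1)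
    (hinv : ν.bind Q = ν) (hX : MC Q ν μ X) (f : S → ℝ) (hf : Measurable f) (hf2 : MemLp f 2 ν)
    (s η R δ : ℝ) (hR : 0 < R) (hδ : 0 < δ) (h : ℕ) (hh : 0 < h)
    (hUI : ∫ ω, (if R * h < SS f X h ω ^ 2 then SS f X h ω ^ 2 else 0) ∂μ ≤ η * h)
    (hLS : ∀ y : S → ℝ, Measurable y → (∀ x, 0 ≤ y x ∧ y x ≤ 1) →
      ∫ ω, mn (fun t => yk Q ν y t (X t ω)) h * SS f X h ω ^ 2 ∂μ ≤ h * (s * ∫ x, y x ∂ν + η))
    (y : S → ℝ) (hy : Measurable y) (hy1 : ∀ x, 0 ≤ y x ∧ y x ≤ 1) (L : ℕ) :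
    ∑ i ∈ range L, ∫ x, y x * (TT Q)^[i * h] (VV Q f h) x ∂ν ≤
      L * (h * (s * ∫ x, y x ∂ν + η) + η * h + R * h * δ)
      + 4 * R * h / δ ^ 2 * (∫ x, y x ^ 2 ∂ν - ∫ x, yk Q ν y (L * h) x ^ 2 ∂ν) := by
  obtain ⟨-, -, hyk, hdu⟩ := hBK2 S Q ν hinv
  obtain ⟨hV, -⟩ := hG1 S Q ν hinv f hf hf2
  induction L with
  | zero => simp [yk]
  | succ L ih =>
    rw [Finset.sum_range_succ]
    have e1 : ∫ x, y x * (TT Q)^[L * h] (VV Q f h) x ∂ν
        = ∫ x, yk Q ν y (L * h) x * VV Q f h x ∂ν :=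
      (hdu y (VV Q f h) (L * h) hy hy1 (hV h).2.2.2).symm
    have e2 : ∫ x, yk Q ν y (L * h) x ∂ν = ∫ x, y x ∂ν := by
      have := hdu y (fun _ => 1) (L * h) hy hy1 (integrable_const _)
      rw [TT_one_iter] at this
      simpa using this
    have e3 : yk Q ν (yk Q ν y (L * h)) h = yk Q ν y ((L + 1) * h) := by
      unfold yk
      rw [← Function.iterate_add_apply, Nat.add_mul, one_mul, Nat.add_comm h]
    have k := key1 hTT hBK2 hML hOSC hG1 hinv hX f hf hf2 s η R δ hR hδ h hh hUI hLS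
      (yk Q ν y (L * h)) (hyk y (L * h) hy hy1).1 (hyk y (L * h) hy hy1).2
    rw [e2, e3] at k
    rw [e1]
    have e4 : R * h * (δ + 4 * (∫ x, yk Q ν y (L * h) x ^ 2 ∂ν
        - ∫ x, yk Q ν y ((L + 1) * h) x ^ 2 ∂ν) / δ ^ 2)
        = R * h * δ + 4 * R * h / δ ^ 2 * (∫ x, yk Q ν y (L * h) x ^ 2 ∂ν
        - ∫ x, yk Q ν y ((L + 1) * h) x ^ 2 ∂ν) := by ring
    rw [e4] at k
    push_cast
    nlinarith [k, ih]

end

end Pool.Agent.N654.MECV
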